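import Mathlib

open Finset Matrix
open scoped Matrix.Norms.L2Operator ComplexOrder

namespace Pool.Agent.Results.MP_6169a9_an.No

/-- Spectral (operator) norm of a complex `d × d` matrix: its norm as a linear operator on
Euclidean space `ℂ^d`. -/
noncomputable def opNorm {d : ℕ} (M : Matrix (Fin d) (Fin d) ℂ) : ℝ :=
  ‖Matrix.toEuclideanCLM (n := Fin d) (𝕜 := ℂ) M‖

/-- The ordered product `A_{j 0} A_{j 1} ⋯ A_{j (m-1)}`. -/
noncomputable def word {d n m : ℕ} (A : Fin n → Matrix (Fin d) (Fin d) ℂ) (j : Fin m → Fin n) :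
    Matrix (Fin d) (Fin d) ℂ := (List.ofFn fun t => A (j t)).prod

/-- With-replacement average `W_m`. -/
noncomputable def W {d n : ℕ} (m : ℕ) (A : Fin n → Matrix (Fin d) (Fin d) ℂ) : ℝ :=
  1 / (n : ℝ) ^ m * ∑ j : Fin m → Fin n, opNorm (word A j)

/-- Without-replacement average `D_m`. -/
noncomputable def D {d n : ℕ} (m : ℕ) (A : Fin n → Matrix (Fin d) (Fin d) ℂ) : ℝ :=
  ((n - m).factorial : ℝ) / n.factorial *
    ∑ j ∈ (univ : Finset (Fin m → Fin n)).filter Function.Injective, opNorm (word A j)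

def v (t : Fin 6) (s : Fin 7) : ℕ := if s = t.castSucc ∨ s = t.succ then 1 else 0

def K (t t' : Fin 6) : ℕ := if t = t' then 2 else if t.val + 1 = t'.val ∨ t'.val + 1 = t.val then 1 else 0

lemma v_K : ∀ t t' : Fin 6, ∑ s, v t s * v t' s = K t t' := by decide

def g (x : Fin 6 → Fin 6) : ℕ :=
  K (x 0) (x 1) * K (x 1) (x 2) * K (x 2) (x 3) * K (x 3) (x 4) * K (x 4) (x 5)

def h {α : Type*} [DecidableEq α] (w : Fin 6 → α) : ℕ :=
  (if Function.Injective w then 1 else 0) + 2 * (if w 0 = w 1 then 1 else 0) +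
  2 * (if w 1 = w 2 then 1 else 0) + 2 * (if w 2 = w 3 then 1 else 0) +
  2 * (if w 3 = w 4 then 1 else 0) + 2 * (if w 4 = w 5 then 1 else 0) +
  (if w 0 = w 2 then 1 else 0) + (if w 3 = w 5 then 1 else 0) +
  32 * (if (univ.image w).card ≤ 4 then 1 else 0)

lemma gh0 : ∀ a b : Fin 6, K a b ≠ 0 → ∀ c, K b c ≠ 0 → ∀ d, K c d ≠ 0 → ∀ e, K d e ≠ 0 →
    ∀ f, K e f ≠ 0 → g ![a, b, c, d, e, f] ≤ h ![a, b, c, d, e, f] := by
  decide +kernel

lemma gh (x : Fin 6 → Fin 6) : g x ≤ h x := by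
  by_cases h0 : g x = 0
  · rw [h0]; exact Nat.zero_le _
  · have e : x = ![x 0, x 1, x 2, x 3, x 4, x 5] := by
      ext i; fin_cases i <;> rfl
    simp only [g, mul_eq_zero, not_or] at h0
    rw [e]
    exact gh0 _ _ h0.1.1.1.1 _ h0.1.1.1.2 _ h0.1.1.2 _ h0.1.2 _ h0.2

lemma h_comp {α : Type*} [DecidableEq α] (β : Fin 6 ↪ α) (x : Fin 6 → Fin 6) :
    h (β ∘ x) = h x := by
  unfold h
  have e1 : Function.Injective (β ∘ x) ↔ Function.Injective x :=
    Function.Injective.of_comp_iff β.injective x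
  have e2 : (univ.image (β ∘ x)).card = (univ.image x).card := by
    rw [← Finset.image_image, Finset.card_image_of_injective _ β.injective]
  simp only [e1, e2, Function.comp, EmbeddingLike.apply_eq_iff_eq]

lemma cnt_eq (n : ℕ) (i j : Fin 6) (hij : i ≠ j) :
    ∑ w : Fin 6 → Fin n, (if w i = w j then 1 else 0) ≤ n ^ 5 := by
  rw [← Finset.card_filter]
  have : n ^ 5 = (univ : Finset (Fin 5 → Fin n)).card := by simp
  rw [this]
  refine Finset.card_le_card_of_injOn (fun w => w ∘ i.succAbove) (fun _ _ => by simp) ?_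
  intro w hw w' hw' e
  simp only [Finset.coe_filter, Finset.mem_univ, true_and, Set.mem_ofPred_eq] at hw hw'
  have key : ∀ k, k ≠ i → w k = w' k := by
    intro k hk
    obtain ⟨l, rfl⟩ := Fin.exists_succAbove_eq hk
    exact congrFun e l
  funext k
  by_cases hk : k = i
  · rw [hk, hw, hw', key j hij.symm]
  · exact key k hk

lemma cnt_small (n : ℕ) (hn : 4 ≤ n) :
    ∑ w : Fin 6 → Fin n, (if (univ.image w).card ≤ 4 then 1 else 0) ≤ n ^ 4 * 4 ^ 6 := by
  rw [← Finset.card_filter]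
  have : (univ.filter fun w : Fin 6 → Fin n => (univ.image w).card ≤ 4) ⊆
      (powersetCard 4 (univ : Finset (Fin n))).biUnion fun S => Fintype.piFinset fun _ => S := by
    intro w hw
    obtain ⟨S, h1, h2⟩ := Finset.exists_superset_card_eq (Finset.mem_filter.1 hw).2
      (by simpa using hn)
    simp only [Finset.mem_biUnion, Finset.mem_powersetCard, Fintype.mem_piFinset]
    exact ⟨S, ⟨Finset.subset_univ _, h2⟩, fun i => h1 (Finset.mem_image_of_mem _ (mem_univ _))⟩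
  refine (Finset.card_le_card this).trans (Finset.card_biUnion_le.trans ?_)
  rw [Finset.sum_congr rfl (g := fun _ => 4 ^ 6)]
  · simp only [Finset.sum_const, Finset.card_powersetCard, Finset.card_univ, Fintype.card_fin,
      smul_eq_mul]
    exact Nat.mul_le_mul_right _ (Nat.choose_le_pow _ _)
  · intro S hS
    rw [Fintype.card_piFinset, Finset.prod_const, (Finset.mem_powersetCard.1 hS).2]
    simp

lemma cnt_inj (n : ℕ) :
    ((univ : Finset (Fin 6 → Fin n)).filter Function.Injective).card = n.descFactorial 6 := by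
  have := Fintype.card_embedding_eq (α := Fin 6) (β := Fin n)
  rw [Fintype.card_fin, Fintype.card_fin] at this
  rw [← this, ← Fintype.card_subtype]
  exact Fintype.card_congr (Equiv.subtypeInjectiveEquivEmbedding _ _)

lemma sum_h (n : ℕ) (hn : 4 ≤ n) : ∑ w : Fin 6 → Fin n, h w ≤
    n.descFactorial 6 + 12 * n ^ 5 + 32 * (n ^ 4 * 4 ^ 6) := by
  unfold h
  simp only [Finset.sum_add_distrib, ← Finset.mul_sum]
  rw [← Finset.card_filter, cnt_inj]
  have := cnt_eq n 0 1 (by decide)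
  have := cnt_eq n 1 2 (by decide)
  have := cnt_eq n 2 3 (by decide)
  have := cnt_eq n 3 4 (by decide)
  have := cnt_eq n 4 5 (by decide)
  have := cnt_eq n 0 2 (by decide)
  have := cnt_eq n 3 5 (by decide)
  have := cnt_small n hn
  omega

section
variable {n d : ℕ} (e : Fin d ≃ (Fin 6 ↪ Fin n) × Fin 7)

def u (β : Fin 6 ↪ Fin n) (j : Fin n) (s : Fin 7) : ℕ := ∑ t, if β t = j then v t s else 0

def KK (β : Fin 6 ↪ Fin n) (j j' : Fin n) : ℕ := ∑ s, u β j s * u β j' s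

lemma u_app (β : Fin 6 ↪ Fin n) (t : Fin 6) (s : Fin 7) : u β (β t) s = v t s := by
  simp [u]

lemma u_not (β : Fin 6 ↪ Fin n) (j : Fin n) (hj : ∀ t, β t ≠ j) (s : Fin 7) : u β j s = 0 := by
  simp [u, hj]

lemma KK_app (β : Fin 6 ↪ Fin n) (t t' : Fin 6) : KK β (β t) (β t') = K t t' := by
  simp only [KK, u_app, v_K]

lemma KK_ne (β : Fin 6 ↪ Fin n) {j j' : Fin n} (h : KK β j j' ≠ 0) :
    (∃ t, β t = j) ∧ ∃ t, β t = j' := by
  constructor
  · by_contra hc
    push Not at hc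
    exact h (by simp [KK, u_not β j hc])
  · by_contra hc
    push Not at hc
    exact h (by simp [KK, u_not β j' hc])

lemma KK_le (β : Fin 6 ↪ Fin n) (j : Fin n) : KK β j j ≤ 2 := by
  by_cases h : KK β j j = 0
  · omega
  · obtain ⟨t, rfl⟩ := (KK_ne β h).1
    rw [KK_app]; simp [K]

def c (β : Fin 6 ↪ Fin n) (w : Fin 6 → Fin n) : ℕ :=
  KK β (w 0) (w 1) * KK β (w 1) (w 2) * KK β (w 2) (w 3) * KK β (w 3) (w 4) * KK β (w 4) (w 5)

lemma c_comp (β : Fin 6 ↪ Fin n) (x : Fin 6 → Fin 6) : c β (β ∘ x) = g x := by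
  simp only [c, g, Function.comp, KK_app]

lemma c_le (β : Fin 6 ↪ Fin n) (w : Fin 6 → Fin n) : c β w ≤ h w := by
  by_cases h0 : c β w = 0
  · rw [h0]; exact Nat.zero_le _
  · have h1 := h0
    simp only [c, mul_eq_zero, not_or] at h1
    have : ∀ i, ∃ t, β t = w i := by
      intro i
      fin_cases i
      exacts [(KK_ne β h1.1.1.1.1).1, (KK_ne β h1.1.1.1.2).1, (KK_ne β h1.1.1.2).1,
        (KK_ne β h1.1.2).1, (KK_ne β h1.2).1, (KK_ne β h1.2).2]
    choose x hx using this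
    have : w = β ∘ x := funext fun i => (hx i).symm
    rw [this, c_comp, h_comp]
    exact gh x

noncomputable def V (j : Fin n) : Matrix (Fin d) (Fin 6 ↪ Fin n) ℂ :=
  fun p β => if (e p).1 = β then (u β j (e p).2 : ℂ) else 0

lemma VV (j j' : Fin n) : (V e j)ᴴ * V e j' = diagonal fun β => (KK β j j' : ℂ) := by
  ext β β'
  rw [Matrix.mul_apply]
  simp only [conjTranspose_apply, V]
  rw [e.sum_comp (fun q => star (if q.1 = β then (u β j q.2 : ℂ) else 0) *
    (if q.1 = β' then (u β' j' q.2 : ℂ) else 0)), Fintype.sum_prod_type, Finset.sum_eq_single β]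
  · by_cases hb : β = β'
    · subst hb
      simp [KK]
    · simp [hb]
  · intro b _ hb
    simp [hb]
  · simp

lemma V_norm (j : Fin n) : ‖V e j‖ * ‖V e j‖ ≤ 2 := by
  rw [← l2_opNorm_conjTranspose_mul_self, VV, l2_opNorm_diagonal]
  refine (pi_norm_le_iff_of_nonneg (by norm_num)).2 fun β => ?_
  rw [Complex.norm_natCast]
  exact_mod_cast KK_le β j

lemma V_norm2 (j j' : Fin n) : ‖V e j‖ * ‖V e j'‖ ≤ 2 := by
  nlinarith [V_norm e j, V_norm e j', sq_nonneg (‖V e j‖ - ‖V e j'‖)]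

noncomputable def A (j : Fin n) : Matrix (Fin d) (Fin d) ℂ := V e j * (V e j)ᴴ

lemma word_eq (w : Fin 6 → Fin n) :
    word (A e) w = V e (w 0) * (diagonal fun β => (c β w : ℂ)) * (V e (w 5))ᴴ := by
  have : word (A e) w = V e (w 0) * (((V e (w 0))ᴴ * V e (w 1)) * ((V e (w 1))ᴴ * V e (w 2)) *
      ((V e (w 2))ᴴ * V e (w 3)) * ((V e (w 3))ᴴ * V e (w 4)) * ((V e (w 4))ᴴ * V e (w 5))) *
      (V e (w 5))ᴴ := by
    simp only [word, A, List.ofFn_succ, List.ofFn_zero, List.prod_cons, List.prod_nil,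
      Matrix.mul_one, Matrix.mul_assoc]
    rfl
  rw [this]
  simp only [VV, diagonal_mul_diagonal, c]
  push_cast
  rfl

lemma word_le (w : Fin 6 → Fin n) : opNorm (word (A e) w) ≤ 2 * h w := by
  unfold opNorm
  rw [l2_opNorm_toEuclideanCLM, word_eq]
  have h1 : ‖(diagonal fun β : Fin 6 ↪ Fin n => (c β w : ℂ))‖ ≤ h w := by
    rw [l2_opNorm_diagonal]
    refine (pi_norm_le_iff_of_nonneg (by positivity)).2 fun β => ?_
    rw [Complex.norm_natCast]
    exact_mod_cast c_le β w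
  calc _ ≤ ‖V e (w 0) * (diagonal fun β => (c β w : ℂ))‖ * ‖(V e (w 5))ᴴ‖ := l2_opNorm_mul _ _
    _ ≤ ‖V e (w 0)‖ * h w * ‖V e (w 5)‖ := by
      rw [l2_opNorm_conjTranspose]
      gcongr
      exact (l2_opNorm_mul _ _).trans (by gcongr)
    _ = ‖V e (w 0)‖ * ‖V e (w 5)‖ * h w := by ring
    _ ≤ _ := by gcongr; exact V_norm2 e _ _

lemma word_ge (w : Fin 6 → Fin n) (hw : Function.Injective w) : 2 ≤ opNorm (word (A e) w) := by
  unfold opNorm
  rw [l2_opNorm_toEuclideanCLM]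
  have h1 : (V e (w 0))ᴴ * word (A e) w * V e (w 5) =
      diagonal fun β => (KK β (w 0) (w 0) * c β w * KK β (w 5) (w 5) : ℂ) := by
    rw [word_eq, ← diagonal_mul_diagonal, ← diagonal_mul_diagonal, ← VV e, ← VV e]
    simp only [Matrix.mul_assoc]
  have h2 : (4 : ℝ) ≤ ‖(V e (w 0))ᴴ * word (A e) w * V e (w 5)‖ := by
    rw [h1, l2_opNorm_diagonal]
    let β : Fin 6 ↪ Fin n := ⟨w, hw⟩
    refine le_trans ?_ (norm_le_pi_norm _ β)
    have e1 : c β w = 1 := c_comp β id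
    have e2 : KK β (w 0) (w 0) = 2 := KK_app β 0 0
    have e3 : KK β (w 5) (w 5) = 2 := KK_app β 5 5
    simp only [e1, e2, e3]
    norm_num
  have h3 : ‖(V e (w 0))ᴴ * word (A e) w * V e (w 5)‖ ≤ 2 * ‖word (A e) w‖ := by
    calc _ ≤ ‖(V e (w 0))ᴴ * word (A e) w‖ * ‖V e (w 5)‖ := l2_opNorm_mul _ _
      _ ≤ ‖(V e (w 0))ᴴ‖ * ‖word (A e) w‖ * ‖V e (w 5)‖ := by
        gcongr
        exact l2_opNorm_mul _ _
      _ = ‖V e (w 0)‖ * ‖V e (w 5)‖ * ‖word (A e) w‖ := by rw [l2_opNorm_conjTranspose]; ring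
      _ ≤ _ := by gcongr; exact V_norm2 e _ _
  linarith

lemma D_ge (hn : 6 ≤ n) : 2 ≤ D 6 (A e) := by
  unfold D
  have h1 : (n.descFactorial 6 : ℝ) * 2 ≤
      ∑ j ∈ (univ : Finset (Fin 6 → Fin n)).filter Function.Injective, opNorm (word (A e) j) := by
    rw [← cnt_inj, ← nsmul_eq_mul]
    exact Finset.card_nsmul_le_sum _ _ _ fun w hw => word_ge e w (Finset.mem_filter.1 hw).2
  have h2 : ((n - 6).factorial : ℝ) * n.descFactorial 6 = n.factorial := by
    exact_mod_cast Nat.factorial_mul_descFactorial hn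
  have h3 : (0 : ℝ) < n.factorial := by exact_mod_cast n.factorial_pos
  calc (2 : ℝ) = ((n - 6).factorial : ℝ) / n.factorial * (n.descFactorial 6 * 2) := by
        rw [← mul_assoc, div_mul_eq_mul_div, h2, div_self h3.ne', one_mul]
    _ ≤ _ := by gcongr

lemma W_lt (hn : 4 ≤ n)
    (hn2 : n.descFactorial 6 + 12 * n ^ 5 + 32 * (n ^ 4 * 4 ^ 6) < n ^ 6) : W 6 (A e) < 2 := by
  unfold W
  have h0 : (0 : ℝ) < n := by exact_mod_cast (by omega : 0 < n)
  have h1 : ((∑ w : Fin 6 → Fin n, h w : ℕ) : ℝ) < n ^ 6 := by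
    exact_mod_cast (sum_h n hn).trans_lt hn2
  rw [one_div, inv_mul_lt_iff₀ (by positivity)]
  calc _ ≤ ∑ w : Fin 6 → Fin n, 2 * (h w : ℝ) := Finset.sum_le_sum fun w _ => word_le e w
    _ = 2 * ((∑ w : Fin 6 → Fin n, h w : ℕ) : ℝ) := by rw [← Finset.mul_sum]; push_cast; rfl
    _ < _ := by linarith

end

lemma main (n : ℕ) (hn : 6 ≤ n)
    (hn2 : n.descFactorial 6 + 12 * n ^ 5 + 32 * (n ^ 4 * 4 ^ 6) < n ^ 6) :
    ∃ (d : ℕ) (A : Fin n → Matrix (Fin d) (Fin d) ℂ), 1 ≤ d ∧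
      (∀ j, (A j).PosSemidef) ∧ W 6 A < D 6 A := by
  let e := (Fintype.equivFin ((Fin 6 ↪ Fin n) × Fin 7)).symm
  refine ⟨_, A e, ?_, fun j => posSemidef_self_mul_conjTranspose _,
    (W_lt e (by omega) hn2).trans_le (D_ge e hn)⟩
  have : Nonempty ((Fin 6 ↪ Fin n) × Fin 7) := ⟨(Fin.castLEEmb hn, 0)⟩
  exact Fintype.card_pos

theorem result : ∃ (d n m : ℕ) (A : Fin n → Matrix (Fin d) (Fin d) ℂ),
    1 ≤ d ∧ 1 ≤ m ∧ m ≤ n ∧ (∀ j, (A j).PosSemidef) ∧ W m A < D m A := by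
  obtain ⟨d, A, h1, h2, h3⟩ := main 100000 (by norm_num) (by norm_num [Nat.descFactorial])
  exact ⟨d, 100000, 6, A, h1, by norm_num, by norm_num, h2, h3⟩

end Pool.Agent.Results.MP_6169a9_an.No
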